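import Mathlib
import Pool.Agent.H361Z.Sol.Defs
import Pool.Agent.H361Z.Sol.Main

set_option autoImplicit false

open scoped Manifold ContDiff ENNReal
open MeasureTheory Pool.Agent.H361Z.Sol

namespace Pool.Agent.Results.MP_416086_gt.AUnboundedMultiplicity

/-- No bound `m_k ≤ F(n, k, Vol, κ)` exists: in dimension `n = 4`, for every `κ > 0`, `V > 0`,
`k ≥ 1` and every `j` there is a closed connected smooth Riemannian `4`-manifold with
`Ric ≥ -(n-1) κ`, volume exactly `V`, `λ_k > 0` and multiplicity `m_k ≥ j`. -/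
theorem result (κ V : ℝ) (hκ : 0 < κ) (hV : 0 < V) (k : ℕ) (hk : 1 ≤ k) (j : ℕ) :
    ∃ (M : Type) (_ : TopologicalSpace M) (_ : T2Space M) (_ : CompactSpace M)
      (_ : ConnectedSpace M) (_ : ChartedSpace (Eu 4) M) (_ : IsManifold (𝓡 4) ∞ M)
      (_ : MeasurableSpace M) (_ : BorelSpace M) (g : RMetric 4 M) (μ : Measure M),
      RicciGE g (-(3 * κ)) ∧ IsVolume g μ ∧ μ Set.univ = ENNReal.ofReal V ∧
        0 < eig g μ k ∧ (j : ℕ∞) ≤ mult g μ k := by
  obtain ⟨P, h1, h2, h3, h4⟩ := main κ V hκ hV k hk j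
  exact ⟨MM P, inferInstance, inferInstance, inferInstance, inferInstance, inferInstance,
    inferInstance, inferInstance, inferInstance, RM P, mu P, h1, isVolume_mu P, h2, h3, h4⟩

end Pool.Agent.Results.MP_416086_gt.AUnboundedMultiplicity
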